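import Mathlib

/-! Fischer inner product on real polynomials and harmonic polynomials (project KS). -/

open MvPolynomial Finset

namespace Pool.Agent.Helper89.KS

variable {D : ℕ}

abbrev P (D : ℕ) : Type := MvPolynomial (Fin D) ℝ

/-- The factorial of a multi-index. -/
noncomputable def fac (a : Fin D →₀ ℕ) : ℝ := ∏ i, ((a i).factorial : ℝ)

lemma fac_pos (a : Fin D →₀ ℕ) : 0 < fac a :=
  Finset.prod_pos fun i _ => by exact_mod_cast Nat.factorial_pos _

/-- The Fischer inner product. -/
noncomputable def fis (f g : P D) : ℝ := ∑ a ∈ f.support, fac a * (coeff a f * coeff a g)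

lemma fis_eq {f g : P D} (S : Finset (Fin D →₀ ℕ)) (h : f.support ⊆ S) :
    fis f g = ∑ a ∈ S, fac a * (coeff a f * coeff a g) := by
  unfold fis
  refine Finset.sum_subset h fun a _ ha => ?_
  rw [MvPolynomial.notMem_support_iff] at ha
  simp [ha]

lemma fis_comm (f g : P D) : fis f g = fis g f := by
  classical
  rw [fis_eq (f.support ∪ g.support) subset_union_left,
    fis_eq (f.support ∪ g.support) subset_union_right]
  exact Finset.sum_congr rfl fun a _ => by ring

lemma fis_add_left (f f' g : P D) : fis (f + f') g = fis f g + fis f' g := by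
  classical
  rw [fis_eq (f := f + f') (f.support ∪ f'.support) MvPolynomial.support_add,
    fis_eq (f := f) (f.support ∪ f'.support) subset_union_left,
    fis_eq (f := f') (f.support ∪ f'.support) subset_union_right, ← Finset.sum_add_distrib]
  exact Finset.sum_congr rfl fun a _ => by rw [coeff_add]; ring

lemma fis_smul_left (c : ℝ) (f g : P D) : fis (c • f) g = c * fis f g := by
  classical
  rw [fis_eq (f := c • f) f.support MvPolynomial.support_smul, fis, Finset.mul_sum]
  exact Finset.sum_congr rfl fun a _ => by rw [coeff_smul, smul_eq_mul]; ring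

/-- The Fischer form as a bilinear map. -/
noncomputable def fisL : P D →ₗ[ℝ] P D →ₗ[ℝ] ℝ :=
  LinearMap.mk₂ ℝ fis fis_add_left fis_smul_left
    (fun f g g' => by rw [fis_comm, fis_add_left, fis_comm g, fis_comm g'])
    (fun c f g => by rw [fis_comm, fis_smul_left, fis_comm g]; rfl)

lemma fisL_apply (f g : P D) : fisL f g = fis f g := rfl

lemma fisL_comm (f g : P D) : fisL f g = fisL g f := fis_comm f g

lemma fisL_self_nonneg (f : P D) : 0 ≤ fisL f f := by
  rw [fisL_apply, fis]
  exact Finset.sum_nonneg fun a _ => mul_nonneg (fac_pos a).le (mul_self_nonneg _)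

lemma fac_add_single (a : Fin D →₀ ℕ) (i : Fin D) :
    fac (a + Finsupp.single i 1) = fac a * ((a i : ℝ) + 1) := by
  classical
  unfold fac
  rw [← Finset.mul_prod_erase univ _ (mem_univ i), ← Finset.mul_prod_erase univ (fun j => ((a j).factorial : ℝ)) (mem_univ i)]
  have h1 : ((a + Finsupp.single i 1 : Fin D →₀ ℕ) i).factorial
      = (a i + 1) * (a i).factorial := by
    simp [Nat.factorial_succ]
  have h2 : ∏ j ∈ univ.erase i, (((a + Finsupp.single i 1 : Fin D →₀ ℕ) j).factorial : ℝ)
      = ∏ j ∈ univ.erase i, ((a j).factorial : ℝ) := by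
    refine Finset.prod_congr rfl fun j hj => ?_
    have : j ≠ i := (Finset.mem_erase.1 hj).1
    simp [Finsupp.single_apply, this.symm]
  rw [h2, h1]
  push_cast
  ring

lemma fisL_X_mul (i : Fin D) (f g : P D) : fisL (X i * f) g = fisL f (pderiv i g) := by
  classical
  induction f using MvPolynomial.induction_on' with
  | add p q hp hq => rw [mul_add, map_add, LinearMap.add_apply, hp, hq, map_add, LinearMap.add_apply]
  | monomial a c =>
    rw [fisL_apply, fisL_apply, X, monomial_mul, one_mul,
      fis_eq (f := monomial (Finsupp.single i 1 + a) c) {Finsupp.single i 1 + a}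
        support_monomial_subset,
      fis_eq (f := monomial a c) {a} support_monomial_subset, sum_singleton, sum_singleton,
      coeff_monomial, coeff_monomial, if_pos rfl, if_pos rfl, coeff_pderiv,
      add_comm (Finsupp.single i 1) a, fac_add_single]
    ring

/-- The Laplace operator. -/
noncomputable def lap : P D →ₗ[ℝ] P D :=
  ∑ i, ((pderiv i : Derivation ℝ (P D) (P D)) : P D →ₗ[ℝ] P D) ∘ₗ
    ((pderiv i : Derivation ℝ (P D) (P D)) : P D →ₗ[ℝ] P D)

lemma lap_apply (f : P D) : lap f = ∑ i, pderiv i (pderiv i f) := by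
  simp [lap, LinearMap.sum_apply]

/-- The square of the norm. -/
noncomputable def rsq : P D := ∑ i, X i * X i

/-- The directional derivative. -/
noncomputable def dd (x : Fin D → ℝ) : P D →ₗ[ℝ] P D :=
  ∑ i, x i • ((pderiv i : Derivation ℝ (P D) (P D)) : P D →ₗ[ℝ] P D)

lemma dd_apply (x : Fin D → ℝ) (f : P D) : dd x f = ∑ i, x i • pderiv i f := by
  simp [dd, LinearMap.sum_apply]

/-- The linear form with coefficients `x`. -/
noncomputable def lin (x : Fin D → ℝ) : P D := ∑ i, x i • X i

/-- The constants `1 / (D + 2 j - 2)`. -/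
noncomputable def ga (D j : ℕ) : ℝ := 1 / ((D : ℝ) + 2 * j - 2)

/-- The raising operators. -/
noncomputable def upi (j : ℕ) (i : Fin D) : P D →ₗ[ℝ] P D :=
  LinearMap.mulLeft ℝ (X i) - (ga D j) • (LinearMap.mulLeft ℝ rsq ∘ₗ
    ((pderiv i : Derivation ℝ (P D) (P D)) : P D →ₗ[ℝ] P D))

lemma upi_apply (j : ℕ) (i : Fin D) (f : P D) :
    upi j i f = X i * f - ga D j • (rsq * pderiv i f) := by
  simp [upi]

noncomputable def up (j : ℕ) (x : Fin D → ℝ) : P D →ₗ[ℝ] P D := ∑ i, x i • upi j i

lemma up_eq_sum (j : ℕ) (x : Fin D → ℝ) (f : P D) : up j x f = ∑ i, x i • upi j i f := by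
  simp [up, LinearMap.sum_apply]

lemma up_apply (j : ℕ) (x : Fin D → ℝ) (f : P D) :
    up j x f = lin x * f - ga D j • (rsq * dd x f) := by
  simp only [up_eq_sum, upi_apply, lin, dd_apply, smul_sub, Finset.sum_sub_distrib,
    Finset.sum_mul, Finset.mul_sum, Finset.smul_sum, smul_mul_assoc, mul_smul_comm]
  congr 1
  exact Finset.sum_congr rfl fun i _ => smul_comm _ _ _

lemma pderiv_pderiv_comm (i j : Fin D) (f : P D) :
    pderiv i (pderiv j f) = pderiv j (pderiv i f) := by
  classical
  ext a
  rw [coeff_pderiv, coeff_pderiv, coeff_pderiv, coeff_pderiv]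
  rcases eq_or_ne i j with rfl | h
  · rfl
  · simp only [Finsupp.coe_add, Pi.add_apply, Finsupp.single_apply, h, h.symm, if_false, add_zero]
    rw [add_assoc, add_assoc, add_comm (Finsupp.single i 1)]
    ring

lemma pderiv_X' (i j : Fin D) : pderiv i (X j : P D) = if i = j then 1 else 0 := by
  classical
  rw [pderiv_X, Pi.single_apply]
  by_cases h : i = j
  · simp [h]
  · simp [h, Ne.symm h]

lemma pderiv_lin (i : Fin D) (x : Fin D → ℝ) : pderiv i (lin x) = C (x i) := by
  classical
  simp only [lin, map_sum, Derivation.map_smul, pderiv_X']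
  rw [Finset.sum_eq_single i]
  · rw [if_pos rfl, MvPolynomial.smul_eq_C_mul, mul_one]
  · intro j _ hj
    rw [if_neg (Ne.symm hj), smul_zero]
  · simp

lemma pderiv_rsq (i : Fin D) : pderiv i (rsq : P D) = 2 * X i := by
  classical
  simp only [rsq, map_sum, pderiv_mul, pderiv_X']
  rw [Finset.sum_eq_single i]
  · rw [if_pos rfl]; ring
  · intro j _ hj
    rw [if_neg (Ne.symm hj)]; ring
  · simp

lemma lap_X_mul (i : Fin D) (f : P D) : lap (X i * f) = X i * lap f + 2 * pderiv i f := by
  classical
  simp only [lap_apply, pderiv_mul, map_add, pderiv_X']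
  have : ∀ j : Fin D, pderiv j ((if j = i then (1 : P D) else 0) * f) +
      ((if j = i then (1 : P D) else 0) * pderiv j f + X i * pderiv j (pderiv j f))
      = X i * pderiv j (pderiv j f) + (if j = i then 2 * pderiv i f else 0) := by
    intro j
    by_cases h : j = i
    · subst h
      simp only [if_true, one_mul]
      ring
    · simp only [h, if_false, zero_mul, map_zero]
      ring
  simp only [pderiv_mul] at this
  rw [Finset.sum_congr rfl fun j _ => this j, Finset.sum_add_distrib, Finset.mul_sum,
    Finset.sum_ite_eq' univ i, if_pos (mem_univ i)]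

lemma lap_rsq_mul (f : P D) :
    lap (rsq * f) = rsq * lap f + 4 * ∑ i, X i * pderiv i f + (2 * D : ℝ) • f := by
  classical
  have h2 : ∀ j : Fin D, pderiv j (2 : P D) = 0 := by
    intro j
    have : (2 : P D) = C 2 := (map_ofNat C 2).symm
    rw [this, pderiv_C]
  have : ∀ j : Fin D, pderiv j (pderiv j (rsq * f))
      = rsq * pderiv j (pderiv j f) + 4 * (X j * pderiv j f) + 2 * f := by
    intro j
    rw [pderiv_mul, map_add, pderiv_mul, pderiv_mul, pderiv_rsq, pderiv_mul, h2, pderiv_X', if_pos rfl]
    ring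
  rw [lap_apply, Finset.sum_congr rfl fun j _ => this j, Finset.sum_add_distrib,
    Finset.sum_add_distrib, ← Finset.mul_sum, ← Finset.mul_sum, lap_apply]
  congr 1
  rw [Finset.sum_const, card_univ, Fintype.card_fin, MvPolynomial.smul_eq_C_mul]
  have hC : (C (2 : ℝ) : P D) = 2 := map_ofNat C 2
  simp only [nsmul_eq_mul, C_mul, map_natCast, hC]
  ring

end Pool.Agent.Helper89.KS
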